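import Pool.Agent.Y163.MW.Base

/-!
# Project MW: local limit asymptotics (`StC2`)
-/

set_option autoImplicit false

open Filter Topology MeasureTheory Pool.Agent.Y163.MW

namespace Pool.Agent.Y681.MW.C2

section

variable {ι : Type} [Fintype ι]

theorem cs_sq_le (a : ι → ℤ) {i j : ι} (hij : a i = a j + 2) (θ : ℝ) :
    cs a θ ^ 2 ≤ (Fintype.card ι : ℝ) ^ 2 - 2 * Real.sin θ ^ 2 := by
  have e1 : (∑ k, Real.cos (a k * θ)) ^ 2 + (∑ k, Real.sin (a k * θ)) ^ 2 =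
      ∑ p : ι × ι, Real.cos ((a p.1 - a p.2) * θ) := by
    rw [Fintype.sum_prod_type, sq, sq, Finset.sum_mul_sum, Finset.sum_mul_sum,
      ← Finset.sum_add_distrib]
    refine Finset.sum_congr rfl fun k _ => ?_
    rw [← Finset.sum_add_distrib]
    refine Finset.sum_congr rfl fun l _ => ?_
    rw [sub_mul, Real.cos_sub]
  have e2 : ∑ p : ι × ι, (1 : ℝ) = (Fintype.card ι : ℝ) ^ 2 := by
    rw [Finset.sum_const, Finset.card_univ, Fintype.card_prod, nsmul_eq_mul, mul_one]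
    push_cast
    ring
  have h1 : 1 - Real.cos ((a (i, j).1 - a (i, j).2) * θ) ≤
      ∑ p : ι × ι, (1 - Real.cos ((a p.1 - a p.2) * θ)) :=
    Finset.single_le_sum (f := fun p : ι × ι => 1 - Real.cos ((a p.1 - a p.2) * θ))
      (fun p _ => by linarith [Real.cos_le_one ((a p.1 - a p.2) * θ)]) (Finset.mem_univ (i, j))
  rw [Finset.sum_sub_distrib, e2] at h1
  have h2 : ((a (i, j).1 : ℝ) - a (i, j).2) * θ = 2 * θ := by
    show ((a i : ℝ) - a j) * θ = 2 * θ
    rw [hij]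
    push_cast
    ring
  rw [h2, Real.cos_two_mul] at h1
  have h3 := Real.sin_sq_add_cos_sq θ
  have h4 : 0 ≤ (∑ k, Real.sin (a k * θ)) ^ 2 := sq_nonneg _
  unfold cs
  linarith

/-- the normalised sum -/
noncomputable def ph (a : ι → ℤ) (θ : ℝ) : ℝ := cs a θ / Fintype.card ι

theorem ph_abs (a : ι → ℤ) {i j : ι} (hij : a i = a j + 2) (θ : ℝ) (n : ℕ) :
    |ph a θ| ^ n ≤ Real.exp (-(n * Real.sin θ ^ 2 / (Fintype.card ι : ℝ) ^ 2)) := by
  have hb : (0 : ℝ) < Fintype.card ι := by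
    have : 0 < Fintype.card ι := Fintype.card_pos_iff.2 ⟨i⟩
    exact_mod_cast this
  have h1 : ph a θ ^ 2 ≤ 1 - 2 * Real.sin θ ^ 2 / (Fintype.card ι : ℝ) ^ 2 := by
    unfold ph
    rw [div_pow, div_le_iff₀ (by positivity)]
    have := cs_sq_le a hij θ
    have e : (1 - 2 * Real.sin θ ^ 2 / (Fintype.card ι : ℝ) ^ 2) * (Fintype.card ι : ℝ) ^ 2 =
        (Fintype.card ι : ℝ) ^ 2 - 2 * Real.sin θ ^ 2 := by
      field_simp
    rw [e]
    exact this
  have h2 : ph a θ ^ 2 ≤ Real.exp (-(2 * Real.sin θ ^ 2 / (Fintype.card ι : ℝ) ^ 2)) := by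
    have := Real.add_one_le_exp (-(2 * Real.sin θ ^ 2 / (Fintype.card ι : ℝ) ^ 2))
    linarith
  have h3 : |ph a θ| ≤ Real.exp (-(Real.sin θ ^ 2 / (Fintype.card ι : ℝ) ^ 2)) := by
    refine abs_le_of_sq_le_sq ?_ (Real.exp_pos _).le
    rw [← Real.exp_nat_mul]
    refine h2.trans (le_of_eq ?_)
    congr 1
    push_cast
    ring
  calc |ph a θ| ^ n ≤ Real.exp (-(Real.sin θ ^ 2 / (Fintype.card ι : ℝ) ^ 2)) ^ n :=
        pow_le_pow_left₀ (abs_nonneg _) h3 n
    _ = Real.exp (-(n * Real.sin θ ^ 2 / (Fintype.card ι : ℝ) ^ 2)) := by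
        rw [← Real.exp_nat_mul]
        congr 1
        ring

/-- the domination -/
theorem dom (a : ι → ℤ) {i j : ι} (hij : a i = a j + 2) (θ : ℝ) (hθ : |θ| ≤ Real.pi) (n : ℕ) :
    |ph a θ ^ n * (1 + Real.cos θ)| ≤
      (2 + Real.pi ^ 2 * (Fintype.card ι : ℝ) ^ 2 / 2) * (1 + n * θ ^ 2)⁻¹ := by
  have hb : (0 : ℝ) < Fintype.card ι := by
    have : 0 < Fintype.card ι := Fintype.card_pos_iff.2 ⟨i⟩
    exact_mod_cast this
  set b : ℝ := ((Fintype.card ι : ℕ) : ℝ) with hbdef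
  have hc1 := Real.neg_one_le_cos θ
  have hc2 := Real.cos_le_one θ
  have hc : 0 ≤ 1 + Real.cos θ := by linarith
  have hπ := Real.pi_pos
  -- `θ ^ 2 ≤ (π ^ 2 / 2) (1 - cos θ)`
  have h1 : θ ^ 2 ≤ Real.pi ^ 2 / 2 * (1 - Real.cos θ) := by
    have h2 := Real.mul_abs_le_abs_sin (x := θ / 2) (by rw [abs_div, abs_two]; linarith)
    have h3 : (2 / Real.pi * |θ / 2|) ^ 2 ≤ |Real.sin (θ / 2)| ^ 2 :=
      pow_le_pow_left₀ (by positivity) h2 2
    rw [mul_pow, sq_abs, sq_abs] at h3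
    have h4 : Real.cos θ = 1 - 2 * Real.sin (θ / 2) ^ 2 := by
      have h5 := Real.cos_two_mul (θ / 2)
      have h6 := Real.sin_sq_add_cos_sq (θ / 2)
      rw [show 2 * (θ / 2) = θ by ring] at h5
      linarith
    rw [h4]
    have h5 : (2 / Real.pi) ^ 2 * (θ / 2) ^ 2 = θ ^ 2 / Real.pi ^ 2 := by field_simp
    rw [h5, div_le_iff₀ (by positivity)] at h3
    linarith
  have h2 : (1 + Real.cos θ) * θ ^ 2 ≤ Real.pi ^ 2 / 2 * Real.sin θ ^ 2 := by
    have h3 := mul_le_mul_of_nonneg_left h1 hc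
    have h4 : (1 + Real.cos θ) * (Real.pi ^ 2 / 2 * (1 - Real.cos θ)) =
        Real.pi ^ 2 / 2 * Real.sin θ ^ 2 := by
      have := Real.sin_sq_add_cos_sq θ
      have e : Real.sin θ ^ 2 = 1 - Real.cos θ ^ 2 := by linarith
      rw [e]
      ring
    linarith
  rw [abs_mul, abs_pow, abs_of_nonneg hc]
  have h3 := ph_abs a hij θ n
  rw [← hbdef] at h3
  have hy : 0 ≤ n * Real.sin θ ^ 2 / b ^ 2 := by positivity
  have h4 : Real.exp (-(n * Real.sin θ ^ 2 / b ^ 2)) ≤ (1 + n * Real.sin θ ^ 2 / b ^ 2)⁻¹ := by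
    rw [Real.exp_neg]
    apply inv_anti₀ (by positivity)
    linarith [Real.add_one_le_exp (n * Real.sin θ ^ 2 / b ^ 2)]
  have h5 : |ph a θ| ^ n * (1 + Real.cos θ) ≤
      (1 + n * Real.sin θ ^ 2 / b ^ 2)⁻¹ * (1 + Real.cos θ) :=
    mul_le_mul_of_nonneg_right (h3.trans h4) hc
  refine h5.trans ?_
  rw [inv_mul_le_iff₀ (by positivity), ← mul_assoc, ← div_eq_mul_inv, le_div_iff₀ (by positivity)]
  have h6 : (n : ℝ) * ((1 + Real.cos θ) * θ ^ 2) ≤ n * (Real.pi ^ 2 / 2 * Real.sin θ ^ 2) :=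
    mul_le_mul_of_nonneg_left h2 (Nat.cast_nonneg n)
  have h7 : (1 + n * Real.sin θ ^ 2 / b ^ 2) * (2 + Real.pi ^ 2 * b ^ 2 / 2) =
      2 + Real.pi ^ 2 * b ^ 2 / 2 + 2 * (n * Real.sin θ ^ 2 / b ^ 2) +
        n * (Real.pi ^ 2 / 2 * Real.sin θ ^ 2) := by
    field_simp
    ring
  rw [h7]
  have h8 : 0 ≤ Real.pi ^ 2 * b ^ 2 / 2 := by positivity
  have h9 : (1 + Real.cos θ) * (1 + n * θ ^ 2) = (1 + Real.cos θ) + n * ((1 + Real.cos θ) * θ ^ 2) := by
    ring
  rw [h9]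
  linarith

/-- `n (cos (c / √n) - 1) → - c² / 2` -/
theorem lim_cos (c : ℝ) :
    Tendsto (fun n : ℕ => (n : ℝ) * (Real.cos (c / √(n : ℝ)) - 1)) atTop (𝓝 (-(c ^ 2 / 2))) := by
  have hlim : Tendsto (fun n : ℕ => c ^ 4 * (5 / 96) / (n : ℝ)) atTop (𝓝 0) :=
    tendsto_const_nhds.div_atTop tendsto_natCast_atTop_atTop
  have hev : ∀ᶠ n : ℕ in atTop, |(n : ℝ) * (Real.cos (c / √(n : ℝ)) - 1) - (-(c ^ 2 / 2))| ≤
      c ^ 4 * (5 / 96) / (n : ℝ) := by
    filter_upwards [eventually_ge_atTop (⌈c ^ 2⌉₊ + 1)] with n hn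
    have hn0 : (0 : ℝ) < n := by
      have : 0 < n := by omega
      exact_mod_cast this
    have hcn : c ^ 2 ≤ n := (Nat.le_ceil _).trans (by exact_mod_cast (by omega : ⌈c ^ 2⌉₊ ≤ n))
    have hs : (√(n : ℝ)) ^ 2 = n := Real.sq_sqrt hn0.le
    have hs0 : 0 < √(n : ℝ) := Real.sqrt_pos.2 hn0
    have h1 : |c / √(n : ℝ)| ≤ 1 := by
      rw [← sq_le_one_iff_abs_le_one, div_pow, hs, div_le_one hn0]
      exact hcn
    have h2 := Real.cos_bound h1
    have h3 : |c / √(n : ℝ)| ^ 4 = c ^ 4 / n ^ 2 := by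
      rw [show |c / √(n : ℝ)| ^ 4 = (|c / √(n : ℝ)| ^ 2) ^ 2 by ring, sq_abs, div_pow, hs]
      ring
    rw [h3, div_pow, hs] at h2
    have h4 : (n : ℝ) * (Real.cos (c / √(n : ℝ)) - 1) - (-(c ^ 2 / 2)) =
        n * (Real.cos (c / √(n : ℝ)) - (1 - c ^ 2 / n / 2)) := by
      field_simp
      ring
    rw [h4, abs_mul, abs_of_pos hn0]
    calc (n : ℝ) * |Real.cos (c / √(n : ℝ)) - (1 - c ^ 2 / n / 2)|
        ≤ n * (c ^ 4 / n ^ 2 * (5 / 96)) := mul_le_mul_of_nonneg_left h2 hn0.le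
      _ = c ^ 4 * (5 / 96) / n := by field_simp
  rw [tendsto_iff_norm_sub_tendsto_zero]
  exact squeeze_zero' (Eventually.of_forall fun n => norm_nonneg _) hev hlim

theorem lim_ph (a : ι → ℤ) (hne : Nonempty ι) (x : ℝ) :
    Tendsto (fun n : ℕ => ph a (x / √(n : ℝ)) ^ n) atTop
      (𝓝 (Real.exp (-(((∑ i, (a i : ℝ) ^ 2) / Fintype.card ι) / 2) * x ^ 2))) := by
  have hb : (0 : ℝ) < Fintype.card ι := by
    have : 0 < Fintype.card ι := Fintype.card_pos
    exact_mod_cast this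
  have h1 : Tendsto (fun n : ℕ => (n : ℝ) * (ph a (x / √(n : ℝ)) - 1)) atTop
      (𝓝 (-(((∑ i, (a i : ℝ) ^ 2) / Fintype.card ι) / 2) * x ^ 2)) := by
    have h2 : Tendsto (fun n : ℕ => (∑ i, (n : ℝ) * (Real.cos ((a i * x) / √(n : ℝ)) - 1)) /
        (Fintype.card ι : ℝ)) atTop (𝓝 ((∑ i, (-((a i * x) ^ 2 / 2))) / (Fintype.card ι : ℝ))) :=
      (tendsto_finsetSum _ fun i _ => lim_cos (a i * x)).div_const _
    have e1 : (∑ i, (-((a i * x) ^ 2 / 2))) / (Fintype.card ι : ℝ) =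
        -(((∑ i, (a i : ℝ) ^ 2) / Fintype.card ι) / 2) * x ^ 2 := by
      have : ∑ i, (-((a i * x) ^ 2 / 2)) = (∑ i, (a i : ℝ) ^ 2) * (-(x ^ 2 / 2)) := by
        rw [Finset.sum_mul]
        refine Finset.sum_congr rfl fun i _ => ?_
        ring
      rw [this]
      ring
    rw [← e1]
    refine h2.congr fun n => ?_
    unfold ph cs
    rw [← Finset.mul_sum, Finset.sum_sub_distrib, Finset.sum_const, Finset.card_univ, nsmul_eq_mul,
      mul_one]
    have e2 : ∑ i, Real.cos (a i * (x / √(n : ℝ))) = ∑ i, Real.cos (a i * x / √(n : ℝ)) := by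
      refine Finset.sum_congr rfl fun i _ => ?_
      rw [mul_div_assoc]
    rw [e2, mul_div_assoc, sub_div, div_self hb.ne']
  have h3 := Real.tendsto_one_add_pow_exp_of_tendsto h1
  refine h3.congr fun n => ?_
  rw [add_sub_cancel]

end

theorem t : StC2 := by
  intro ι _ a ⟨i, j, hij⟩
  have hb : (0 : ℝ) < Fintype.card ι := by
    have : 0 < Fintype.card ι := Fintype.card_pos_iff.2 ⟨i⟩
    exact_mod_cast this
  set b : ℝ := ((Fintype.card ι : ℕ) : ℝ) with hbdef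
  have hS : 0 < ∑ i, (a i : ℝ) ^ 2 := by
    have h1 : ∃ k, a k ≠ 0 := by
      by_cases h : a i = 0
      · exact ⟨j, by omega⟩
      · exact ⟨i, h⟩
    obtain ⟨k, hk⟩ := h1
    have hk' : (0 : ℝ) < (a k : ℝ) ^ 2 := by
      have : (a k : ℝ) ≠ 0 := by exact_mod_cast hk
      positivity
    exact lt_of_lt_of_le hk' (Finset.single_le_sum (f := fun k => (a k : ℝ) ^ 2)
      (fun k _ => sq_nonneg _) (Finset.mem_univ k))
  have hπ := Real.pi_pos
  have hcont : Continuous (fun θ : ℝ => ph a θ) := by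
    unfold ph cs
    fun_prop
  -- the functions
  let F : ℕ → ℝ → ℝ := fun n => Set.indicator (Set.Ioc (-(Real.pi * √(n : ℝ))) (Real.pi * √(n : ℝ)))
    (fun x => ph a (x / √(n : ℝ)) ^ n * (1 + Real.cos (x / √(n : ℝ))))
  have hlim : Tendsto (fun n => ∫ x, F n x) atTop
      (𝓝 (∫ x : ℝ, Real.exp (-(((∑ i, (a i : ℝ) ^ 2) / b) / 2) * x ^ 2) * 2)) := by
    apply tendsto_integral_of_dominated_convergence
      (fun x => (2 + Real.pi ^ 2 * b ^ 2 / 2) * (1 + x ^ 2)⁻¹)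
    · intro n
      apply AEStronglyMeasurable.indicator _ measurableSet_Ioc
      apply Continuous.aestronglyMeasurable
      have h1 : Continuous (fun x : ℝ => x / √(n : ℝ)) := continuous_id.div_const _
      exact ((hcont.comp h1).pow n).mul (continuous_const.add (Real.continuous_cos.comp h1))
    · exact integrable_inv_one_add_sq.const_mul _
    · intro n
      refine Eventually.of_forall fun x => ?_
      show ‖Set.indicator _ _ x‖ ≤ _
      by_cases hx : x ∈ Set.Ioc (-(Real.pi * √(n : ℝ))) (Real.pi * √(n : ℝ))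
      · rw [Set.indicator_of_mem hx, Real.norm_eq_abs]
        have hn : 0 < n := by
          rcases Nat.eq_zero_or_pos n with h | h
          · subst h
            simp at hx
          · exact h
        have hn' : (0 : ℝ) < n := by exact_mod_cast hn
        have hs0 : 0 < √(n : ℝ) := Real.sqrt_pos.2 hn'
        have h1 : |x / √(n : ℝ)| ≤ Real.pi := by
          rw [abs_div, abs_of_pos hs0, div_le_iff₀ hs0, abs_le]
          exact ⟨hx.1.le, hx.2⟩
        refine (dom a hij _ h1 n).trans (le_of_eq ?_)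
        have h2 : (n : ℝ) * (x / √(n : ℝ)) ^ 2 = x ^ 2 := by
          rw [div_pow, Real.sq_sqrt hn'.le]
          field_simp
        rw [h2]
      · rw [Set.indicator_of_notMem hx, norm_zero]
        positivity
    · refine Eventually.of_forall fun x => ?_
      have hsq : Tendsto (fun n : ℕ => √(n : ℝ)) atTop atTop :=
        Real.tendsto_sqrt_atTop.comp tendsto_natCast_atTop_atTop
      have h1 := lim_ph a ⟨i⟩ x
      rw [← hbdef] at h1
      have h2 : Tendsto (fun n : ℕ => x / √(n : ℝ)) atTop (𝓝 0) := tendsto_const_nhds.div_atTop hsq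
      have h3 : Tendsto (fun n : ℕ => 1 + Real.cos (x / √(n : ℝ))) atTop (𝓝 2) := by
        have h4 := (Real.continuous_cos.tendsto 0).comp h2
        rw [Real.cos_zero] at h4
        have h5 := (tendsto_const_nhds (x := (1 : ℝ))).add h4
        rw [one_add_one_eq_two] at h5
        exact h5
      have h6 := h1.mul h3
      refine h6.congr' ?_
      have h7 : ∀ᶠ n : ℕ in atTop, |x| / Real.pi < √(n : ℝ) := hsq.eventually_gt_atTop _
      filter_upwards [h7] with n hn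
      show _ = Set.indicator _ _ x
      rw [div_lt_iff₀ hπ, mul_comm] at hn
      rw [Set.indicator_of_mem]
      rw [abs_lt] at hn
      exact ⟨hn.1, hn.2.le⟩
  have hI : ∫ x : ℝ, Real.exp (-(((∑ i, (a i : ℝ) ^ 2) / b) / 2) * x ^ 2) * 2 =
      √(Real.pi / (((∑ i, (a i : ℝ) ^ 2) / b) / 2)) * 2 := by
    rw [integral_mul_const, integral_gaussian]
  rw [hI] at hlim
  have hlim2 := hlim.const_mul (1 / (2 * Real.pi))
  have e1 : 1 / (2 * Real.pi) * (√(Real.pi / (((∑ i, (a i : ℝ) ^ 2) / b) / 2)) * 2) =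
      √(2 * b / (Real.pi * ∑ i, (a i : ℝ) ^ 2)) := by
    have h1 : 2 * b / (Real.pi * ∑ i, (a i : ℝ) ^ 2) =
        (1 / Real.pi) ^ 2 * (Real.pi / (((∑ i, (a i : ℝ) ^ 2) / b) / 2)) := by
      field_simp
    rw [h1, Real.sqrt_mul (by positivity), Real.sqrt_sq (by positivity)]
    ring
  rw [e1] at hlim2
  refine hlim2.congr' ?_
  filter_upwards [eventually_gt_atTop 0] with n hn
  have hn' : (0 : ℝ) < n := by exact_mod_cast hn
  have hs0 : 0 < √(n : ℝ) := Real.sqrt_pos.2 hn'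
  have h1 : ∫ x, F n x = ∫ x in (-(Real.pi * √(n : ℝ)))..(Real.pi * √(n : ℝ)),
      ph a (x / √(n : ℝ)) ^ n * (1 + Real.cos (x / √(n : ℝ))) := by
    rw [intervalIntegral.integral_of_le (by
      have : 0 ≤ Real.pi * √(n : ℝ) := by positivity
      linarith)]
    exact integral_indicator measurableSet_Ioc
  rw [h1, intervalIntegral.integral_comp_div (fun θ => ph a θ ^ n * (1 + Real.cos θ)) hs0.ne']
  have h2 : -(Real.pi * √(n : ℝ)) / √(n : ℝ) = -Real.pi := by field_simp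
  have h3 : Real.pi * √(n : ℝ) / √(n : ℝ) = Real.pi := by field_simp
  rw [h2, h3, smul_eq_mul]
  show 1 / (2 * Real.pi) * (√(n : ℝ) * ∫ θ in (-Real.pi)..Real.pi,
    (cs a θ / (Fintype.card ι : ℝ)) ^ n * (1 + Real.cos θ)) = _
  ring

end Pool.Agent.Y681.MW.C2
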